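import Mathlib
import Pool.Agent.R318.MA.Main

/-!
MP_2d6919_lc, Q1, full positive answer.

Let `B` be a ccc complete Boolean algebra all of whose countably generated complete subalgebras
admit measures, and suppose that `B` admits a continuous outer measure. Then `B` admits a measure.
-/

universe u

namespace Pool.Agent.Results.MP_2d6919_lc.MeasureExists

open Pool.Agent.R318.MA

theorem result (B : Type u) [CompleteBooleanAlgebra B] (_hccc : CCC B)
    (hyp : ∀ C : BooleanSubalgebra B, IsCountablyGenerated C → ∃ μ : C → ℝ, IsMeasure μ)
    (hm : ∃ m : B → ℝ, IsContOuter m) :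
    ∃ μ : B → ℝ, IsMeasure μ :=
  main hyp hm

end Pool.Agent.Results.MP_2d6919_lc.MeasureExists
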